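import Pool.Agent.Y476.WO.Fac

set_option autoImplicit false
open MeasureTheory AddCircle Finset
open scoped ComplexConjugate

namespace Pool.Agent.Y476.WO

variable (c : ℕ → ℂ)

/-- The coefficients at time s. -/
noncomputable def co (s : ℝ) (n : ℕ) : ℂ := c n * ((Real.exp (-(s / ((n : ℝ) + 1))) : ℝ) : ℂ)

/-- The trigonometric series at time s. -/
noncomputable def GG (s : ℝ) : CT := ∑' n : ℕ, co c s n • (fourier (n : ℤ) : CT)

variable {c}

theorem norm_co_le {s : ℝ} (hs : 0 ≤ s) (n : ℕ) : ‖co c s n‖ ≤ ‖c n‖ := by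
  unfold co
  rw [norm_mul, Complex.norm_real, Real.norm_eq_abs, abs_of_pos (Real.exp_pos _)]
  have : Real.exp (-(s / ((n : ℝ) + 1))) ≤ 1 := by
    rw [Real.exp_le_one_iff]
    have : 0 ≤ s / ((n : ℝ) + 1) := by positivity
    linarith
  exact mul_le_of_le_one_right (norm_nonneg _) this

theorem norm_smul_fourier (a : ℂ) (n : ℤ) : ‖a • (fourier n : CT)‖ = ‖a‖ := by
  rw [norm_smul, fourier_norm, mul_one]

theorem summable_co (hc : Summable fun n => ‖c n‖) {s : ℝ} (hs : 0 ≤ s) :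
    Summable fun n : ℕ => co c s n • (fourier (n : ℤ) : CT) :=
  Summable.of_norm_bounded hc fun n => by
    rw [norm_smul_fourier]; exact norm_co_le hs n

theorem GG_apply (hc : Summable fun n => ‖c n‖) {s : ℝ} (hs : 0 ≤ s) (t : Ci) :
    GG c s t = ∑' n : ℕ, co c s n * (fourier (n : ℤ) : CT) t := by
  have h := ContinuousMap.tsum_apply (summable_co hc hs) t
  exact h.symm

theorem exp_step {u s s' : ℝ} (hu : 0 < u) (hs : 0 < s) (h1 : s ≤ s') (h2 : s' ≤ s + 1) :
    |Real.exp (-(s' * u)) - Real.exp (-(s * u))| ≤ 1 / s := by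
  have e1 : Real.exp (-(s' * u)) = Real.exp (-(s * u)) * Real.exp (-((s' - s) * u)) := by
    rw [← Real.exp_add]; congr 1; ring
  have h3 : 1 - (s' - s) * u ≤ Real.exp (-((s' - s) * u)) := by
    have := Real.add_one_le_exp (-((s' - s) * u)); linarith
  have h4 : Real.exp (-((s' - s) * u)) ≤ 1 := by
    rw [Real.exp_le_one_iff]
    have : 0 ≤ (s' - s) * u := mul_nonneg (by linarith) hu.le
    linarith
  have h5 : (s' - s) * u ≤ u := by nlinarith
  have h6 : Real.exp (-(s * u)) * u ≤ 1 / s := by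
    have h7 : s * u ≤ Real.exp (s * u) := by
      have := Real.add_one_le_exp (s * u); linarith
    rw [le_div_iff₀ hs, Real.exp_neg]
    have h8 : 0 < Real.exp (s * u) := Real.exp_pos _
    rw [mul_assoc, inv_mul_le_iff₀ h8, mul_one]
    linarith [mul_comm u s]
  have h9 : 0 < Real.exp (-(s * u)) := Real.exp_pos _
  rw [e1, abs_le]
  constructor
  · nlinarith
  · have : 0 ≤ 1 / s := by positivity
    nlinarith

theorem GG_step (hc : Summable fun n => ‖c n‖) {s s' : ℝ} (hs : 0 < s) (h1 : s ≤ s')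
    (h2 : s' ≤ s + 1) : ‖GG c s' - GG c s‖ ≤ (∑' n, ‖c n‖) / s := by
  unfold GG
  rw [← Summable.tsum_sub (summable_co hc (by linarith)) (summable_co hc hs.le)]
  have hb : ∀ n : ℕ, ‖co c s' n • (fourier (n : ℤ) : CT) - co c s n • (fourier (n : ℤ) : CT)‖ ≤
      ‖c n‖ / s := by
    intro n
    rw [← sub_smul, norm_smul_fourier]
    unfold co
    rw [← mul_sub, norm_mul, ← Complex.ofReal_sub, Complex.norm_real, Real.norm_eq_abs]
    have hu : 0 < 1 / ((n : ℝ) + 1) := by positivity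
    have h3 := exp_step hu hs h1 h2
    have e1 : s' / ((n : ℝ) + 1) = s' * (1 / ((n : ℝ) + 1)) := by ring
    have e2 : s / ((n : ℝ) + 1) = s * (1 / ((n : ℝ) + 1)) := by ring
    rw [e1, e2, div_eq_mul_one_div ‖c n‖ s]
    exact mul_le_mul_of_nonneg_left h3 (norm_nonneg _)
  have hsum : Summable fun n => ‖c n‖ / s := hc.div_const s
  refine (tsum_of_norm_bounded hsum.hasSum hb).trans ?_
  rw [tsum_div_const]

theorem lower (hc : Summable fun n => ‖c n‖)
    (H : ∀ t : ℝ, 0 ≤ t → 1 / Real.sqrt (1 + t) ≤ ‖GG c t (t : Ci)‖) {s : ℝ} (hs : 0 < s)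
    (x : Ci) : 1 / Real.sqrt (2 + s) - (∑' n, ‖c n‖) / s ≤ ‖GG c s x‖ := by
  obtain ⟨t, ht1, ht2, rfl⟩ : ∃ t : ℝ, s ≤ t ∧ t ≤ s + 1 ∧ (t : Ci) = x := by
    have h := (AddCircle.equivIco (1 : ℝ) s x).2
    exact ⟨(AddCircle.equivIco (1 : ℝ) s x : ℝ), h.1, h.2.le, AddCircle.coe_equivIco⟩
  have h1 := H t (by linarith)
  have h2 : 1 / Real.sqrt (2 + s) ≤ 1 / Real.sqrt (1 + t) := by
    apply one_div_le_one_div_of_le (Real.sqrt_pos.2 (by linarith))
    exact Real.sqrt_le_sqrt (by linarith)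
  have h3 := ContinuousMap.norm_coe_le_norm (GG c t - GG c s) (t : Ci)
  have h4 := GG_step hc hs ht1 ht2
  rw [ContinuousMap.sub_apply] at h3
  have h5 : ‖GG c t (t : Ci)‖ ≤ ‖GG c s (t : Ci)‖ + ‖GG c t (t : Ci) - GG c s (t : Ci)‖ := by
    have := norm_add_le (GG c s (t : Ci)) (GG c t (t : Ci) - GG c s (t : Ci))
    rwa [add_sub_cancel] at this
  linarith

theorem asym {C s : ℝ} (hC : 0 ≤ C) (hs : 32 * C ^ 2 + 2 ≤ s) :
    C / s ≤ 1 / 4 * (1 / Real.sqrt (2 + s)) := by
  have hs0 : 0 < s := by nlinarith [sq_nonneg C]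
  have h1 : Real.sqrt (2 + s) * (4 * C) ≤ s := by
    have h2 : Real.sqrt (2 + s) ^ 2 = 2 + s := Real.sq_sqrt (by linarith)
    have h3 : 0 ≤ Real.sqrt (2 + s) := Real.sqrt_nonneg _
    refine abs_le_of_sq_le_sq' ?_ hs0.le |>.2
    have h4 : (Real.sqrt (2 + s) * (4 * C)) ^ 2 = (2 + s) * (16 * C ^ 2) := by
      rw [mul_pow, h2]; ring
    rw [h4]
    have h5 : 2 + s ≤ 2 * s := by nlinarith [sq_nonneg C]
    have h6 : (2 + s) * (16 * C ^ 2) ≤ (2 * s) * (16 * C ^ 2) :=
      mul_le_mul_of_nonneg_right h5 (by positivity)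
    nlinarith
  have h7 : 0 < Real.sqrt (2 + s) := Real.sqrt_pos.2 (by linarith)
  rw [div_le_iff₀ hs0]
  have : C = (Real.sqrt (2 + s) * (4 * C)) * (1 / 4 * (1 / Real.sqrt (2 + s))) := by
    field_simp
  calc C = (Real.sqrt (2 + s) * (4 * C)) * (1 / 4 * (1 / Real.sqrt (2 + s))) := this
    _ ≤ s * (1 / 4 * (1 / Real.sqrt (2 + s))) :=
        mul_le_mul_of_nonneg_right h1 (by positivity)
    _ = 1 / 4 * (1 / Real.sqrt (2 + s)) * s := by ring

theorem fac_GG (hc : Summable fun n => ‖c n‖) {s m : ℝ} (hs : 0 ≤ s) (hm : 0 < m)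
    (h : ∀ x, m ≤ ‖GG c s x‖) : ∃ W, Fac (GG c s) W := by
  have hS : HasSum (fun n : ℕ => co c s n • (fourier (n : ℤ) : CT)) (GG c s) :=
    (summable_co hc hs).hasSum
  have ht := hS.tendsto_sum_nat
  obtain ⟨N, hN⟩ := (Metric.tendsto_atTop.1 ht (m / 3) (by positivity))
  have hN' := hN N le_rfl
  set p : Polynomial ℂ := ∑ n ∈ range N, Polynomial.monomial n (co c s n) with hp
  have hpe : Polynomial.aeval (fourier 1 : CT) p =
      ∑ n ∈ range N, co c s n • (fourier (n : ℤ) : CT) := by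
    rw [hp, map_sum]
    refine sum_congr rfl fun n _ => ?_
    rw [Polynomial.aeval_monomial, fourier_pow, Algebra.smul_def]
  rw [← hpe, dist_eq_norm] at hN'
  have hpt : ∀ t, ‖GG c s t - (Polynomial.aeval (fourier 1 : CT) p) t‖ < m / 3 := by
    intro t
    have h1 := ContinuousMap.norm_coe_le_norm (Polynomial.aeval (fourier 1 : CT) p - GG c s) t
    rw [ContinuousMap.sub_apply, ← norm_neg, neg_sub] at h1
    exact lt_of_le_of_lt h1 hN'
  have hpl : ∀ t, m / 3 < ‖(Polynomial.aeval (fourier 1 : CT) p) t‖ := by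
    intro t
    have h1 := h t
    have h2 := hpt t
    have h3 := norm_sub_norm_le (GG c s t) ((Polynomial.aeval (fourier 1 : CT) p) t)
    linarith
  obtain ⟨W, hW⟩ := fac_poly p fun t h0 => by
    have := hpl t
    rw [h0, norm_zero] at this
    linarith
  exact ⟨W, fac_of_close hW fun t => (hpt t).trans (hpl t)⟩

theorem no_fac (hc : Summable fun n => ‖c n‖) {s : ℝ} (hs : 0 ≤ s) (W : ℤ)
    (hP : ∀ x, (∑' n, ‖c n‖) * Real.exp (-(s / ((W.toNat : ℝ) + 1))) < ‖GG c s x‖)
    (hF : Fac (GG c s) W) : False := by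
  obtain ⟨l, hl⟩ := hF
  set N : ℕ := W.toNat + 1 with hN
  set P : CT := ∑ n ∈ range N, co c s n • (fourier (n : ℤ) : CT) with hPdef
  set k : CT := ∑' n : ℕ, co c s (n + N) • (fourier (((n + N : ℕ) : ℤ) - W - 1) : CT) with hk
  have hsk : Summable fun n : ℕ => co c s (n + N) • (fourier (((n + N : ℕ) : ℤ) - W - 1) : CT) := by
    have hc' : Summable fun n => ‖c (n + N)‖ := (summable_nat_add_iff N).2 hc
    refine Summable.of_norm_bounded hc' fun n => ?_
    rw [norm_smul_fourier]; exact norm_co_le hs _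
  have hkA : k ∈ Ap := by
    refine isClosed_Ap.mem_of_tendsto hsk.hasSum (Filter.Eventually.of_forall fun S => ?_)
    refine Subalgebra.sum_mem _ fun i _ => Subalgebra.smul_mem _ ?_ _
    obtain ⟨m, hm⟩ := Int.eq_ofNat_of_zero_le (a := ((i + N : ℕ) : ℤ) - W - 1) (by omega)
    rw [hm]
    exact fourier_nat_mem m
  have hsplit : GG c s = P + (fourier W : CT) * ((fourier 1 : CT) * k) := by
    have h1 := (summable_co hc hs).sum_add_tsum_nat_add N
    have h2 : (fourier W : CT) * ((fourier 1 : CT) * k) =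
        ∑' n : ℕ, co c s (n + N) • (fourier (((n + N : ℕ) : ℤ)) : CT) := by
      rw [hk, ← mul_assoc, ← hsk.tsum_mul_left]
      refine tsum_congr fun n => ?_
      rw [mul_smul_comm]
      congr 1
      ext t
      simp only [ContinuousMap.mul_apply]
      rw [← fourier_add, ← fourier_add]
      congr 2
      ring
    rw [h2]
    exact h1.symm
  have hPn : ‖P‖ ≤ (∑' n, ‖c n‖) * Real.exp (-(s / ((W.toNat : ℝ) + 1))) := by
    rw [hPdef]
    refine (norm_sum_le _ _).trans ?_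
    have h1 : ∀ n ∈ range N, ‖co c s n • (fourier (n : ℤ) : CT)‖ ≤
        ‖c n‖ * Real.exp (-(s / ((W.toNat : ℝ) + 1))) := by
      intro n hn
      rw [norm_smul_fourier]
      unfold co
      rw [norm_mul, Complex.norm_real, Real.norm_eq_abs, abs_of_pos (Real.exp_pos _)]
      refine mul_le_mul_of_nonneg_left (Real.exp_le_exp.2 ?_) (norm_nonneg _)
      have h2 : (n : ℝ) + 1 ≤ (W.toNat : ℝ) + 1 := by
        have : n ≤ W.toNat := by
          have := mem_range.1 hn
          omega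
        have : (n : ℝ) ≤ (W.toNat : ℝ) := by exact_mod_cast this
        linarith
      have h3 : s / ((W.toNat : ℝ) + 1) ≤ s / ((n : ℝ) + 1) :=
        div_le_div_of_nonneg_left hs (by positivity) h2
      linarith
    refine (sum_le_sum h1).trans ?_
    rw [← sum_mul]
    exact mul_le_mul_of_nonneg_right (hc.sum_le_tsum _ fun _ _ => norm_nonneg _)
      (Real.exp_pos _).le
  have hF0 : Fac (ce l) 0 := ⟨l, fun t => by simp⟩
  have hF1 : Fac ((fourier 1 : CT) * k) 0 := by
    refine fac_of_close hF0 fun t => ?_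
    have hW1 := fourier_apply_norm W t
    have h1 : GG c s t = P t + (fourier W : CT) t * ((fourier 1 : CT) * k) t := by
      rw [hsplit]; rfl
    have h2 : (fourier W : CT) t * (((fourier 1 : CT) * k) t - ce l t) = - P t := by
      rw [mul_sub, ce_apply, ← hl, h1]; ring
    have h3 : ‖((fourier 1 : CT) * k) t - ce l t‖ = ‖P t‖ := by
      calc ‖((fourier 1 : CT) * k) t - ce l t‖
          = ‖(fourier W : CT) t‖ * ‖((fourier 1 : CT) * k) t - ce l t‖ := by rw [hW1, one_mul]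
        _ = ‖(fourier W : CT) t * (((fourier 1 : CT) * k) t - ce l t)‖ := (norm_mul _ _).symm
        _ = ‖P t‖ := by rw [h2, norm_neg]
    have h4 : ‖ce l t‖ = ‖GG c s t‖ := by
      rw [hl, norm_mul, hW1, one_mul, ce_apply]
    rw [h3, h4]
    exact ((ContinuousMap.norm_coe_le_norm P t).trans hPn).trans_lt (hP t)
  obtain ⟨l', hl'⟩ := hF1
  refine hardy k l' hkA fun t => ?_
  have := hl' t
  rw [fourier_zero, one_mul] at this
  exact this

theorem core (hc : Summable fun n => ‖c n‖)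
    (H : ∀ t : ℝ, 0 ≤ t → 1 / Real.sqrt (1 + t) ≤ ‖GG c t (t : Ci)‖) : False := by
  set C : ℝ := ∑' n, ‖c n‖ with hC
  have hC0 : 0 ≤ C := tsum_nonneg fun _ => norm_nonneg _
  set S : ℝ := 32 * C ^ 2 + 2 with hS
  have hS0 : 0 < S := by positivity
  have hlow : ∀ s : ℝ, S ≤ s → ∀ x, 3 / 4 * (1 / Real.sqrt (2 + s)) ≤ ‖GG c s x‖ := by
    intro s hs x
    have h1 := lower hc H (lt_of_lt_of_le hS0 hs) x
    have h2 := asym hC0 hs
    linarith
  have hpos : ∀ s : ℝ, S ≤ s → 0 < 1 / Real.sqrt (2 + s) := fun s hs => by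
    have : 0 < Real.sqrt (2 + s) := Real.sqrt_pos.2 (by linarith)
    positivity
  obtain ⟨W, hW⟩ := fac_GG hc hS0.le (m := 3 / 4 * (1 / Real.sqrt (2 + S)))
    (by have := hpos S le_rfl; positivity) (hlow S le_rfl)
  have hind : ∀ j : ℕ, Fac (GG c (S + j)) W := by
    intro j
    induction j with
    | zero => simpa using hW
    | succ j ih =>
      refine fac_of_close ih fun t => ?_
      have hj : S ≤ S + j := by linarith [Nat.cast_nonneg (α := ℝ) j]
      have h0 : 0 < S + j := lt_of_lt_of_le hS0 hj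
      have h1 := GG_step hc (s' := S + ((j + 1 : ℕ) : ℝ)) h0 (by push_cast; linarith)
        (by push_cast; linarith)
      have h2 := ContinuousMap.norm_coe_le_norm (GG c (S + ((j + 1 : ℕ) : ℝ)) - GG c (S + j)) t
      rw [ContinuousMap.sub_apply] at h2
      have h3 := asym hC0 hj
      have h4 := hlow _ hj t
      have h5 := hpos _ hj
      linarith
  obtain ⟨j, hj⟩ := exists_nat_gt (3 * C * ((W.toNat : ℝ) + 1) ^ 2)
  have hjS : S ≤ S + j := by linarith [Nat.cast_nonneg (α := ℝ) j]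
  refine no_fac hc (s := S + j) (by linarith) W (fun x => ?_) (hind j)
  refine lt_of_lt_of_le ?_ (hlow _ hjS x)
  set s : ℝ := S + j with hs
  set M : ℝ := (W.toNat : ℝ) + 1 with hM
  have hM0 : 0 < M := by positivity
  have hs2 : 2 ≤ s := by nlinarith [sq_nonneg C]
  have hs0 : 0 < s := by linarith
  have hsC : 3 * C * M ^ 2 < s := by
    have : (0 : ℝ) ≤ S := hS0.le
    linarith
  have h1 : (s / M) ^ 2 / 2 ≤ Real.exp (s / M) := by
    have := Real.quadratic_le_exp_of_nonneg (x := s / M) (by positivity)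
    have h2 : 0 ≤ s / M := by positivity
    linarith
  have h2 : Real.exp (-(s / M)) ≤ 2 * M ^ 2 / s ^ 2 := by
    rw [Real.exp_neg]
    have h3 : 0 < (s / M) ^ 2 / 2 := by positivity
    have h4 := inv_anti₀ h3 h1
    refine h4.trans (le_of_eq ?_)
    field_simp
  have h3 : Real.sqrt (2 + s) ≤ s := by
    rw [Real.sqrt_le_left hs0.le]
    nlinarith
  have h4 : 3 / 4 * (1 / s) ≤ 3 / 4 * (1 / Real.sqrt (2 + s)) := by
    have : 1 / s ≤ 1 / Real.sqrt (2 + s) :=
      one_div_le_one_div_of_le (Real.sqrt_pos.2 (by linarith)) h3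
    linarith
  refine lt_of_lt_of_le ?_ h4
  have h5 : C * Real.exp (-(s / M)) ≤ C * (2 * M ^ 2 / s ^ 2) := mul_le_mul_of_nonneg_left h2 hC0
  refine lt_of_le_of_lt h5 ?_
  rw [show C * (2 * M ^ 2 / s ^ 2) = (2 * C * M ^ 2) / s ^ 2 by ring,
    show 3 / 4 * (1 / s) = (3 / 4 * s) / s ^ 2 by field_simp]
  rw [div_lt_div_iff_of_pos_right (by positivity)]
  nlinarith

end Pool.Agent.Y476.WO
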