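import Pool.Agent.Y476.WO.Hardy

set_option autoImplicit false
open MeasureTheory AddCircle
open scoped ComplexConjugate

namespace Pool.Agent.Y476.WO

/-- The function is an exponential times the monomial of degree W. -/
def Fac (G : CT) (W : ℤ) : Prop :=
  ∃ l : CT, ∀ t, G t = (fourier W : CT) t * Complex.exp (l t)

theorem fourier_apply_norm (n : ℤ) (t : Ci) : ‖(fourier n : CT) t‖ = 1 := by
  rw [fourier_apply]; exact Circle.norm_coe _

theorem fac_of_close {G G' : CT} {W : ℤ} (h : Fac G W) (hc : ∀ t, ‖G' t - G t‖ < ‖G t‖) :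
    Fac G' W := by
  obtain ⟨l, hl⟩ := h
  have hG : ∀ t, G t ≠ 0 := fun t h0 => by
    have := hc t
    rw [h0, norm_zero] at this
    exact absurd this (not_lt.2 (norm_nonneg _))
  have hr : ∀ t, G' t / G t ∈ Complex.slitPlane := by
    intro t
    left
    have h1 : ‖G' t / G t - 1‖ < 1 := by
      have e : G' t / G t - 1 = (G' t - G t) / G t := by
        rw [sub_div, div_self (hG t)]
      rw [e, norm_div, div_lt_one (norm_pos_iff.2 (hG t))]
      exact hc t
    have h2 := Complex.abs_re_le_norm (G' t / G t - 1)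
    rw [Complex.sub_re, Complex.one_re] at h2
    have h3 := (abs_le.1 h2).1
    linarith
  refine ⟨⟨fun t => l t + Complex.log (G' t / G t), ?_⟩, fun t => ?_⟩
  · have : Continuous fun t => G' t / G t := G'.continuous.div G.continuous hG
    exact l.continuous.add (this.clog hr)
  · show G' t = (fourier W : CT) t * Complex.exp (l t + Complex.log (G' t / G t))
    rw [Complex.exp_add, Complex.exp_log (Complex.slitPlane_ne_zero (hr t)), ← mul_assoc, ← hl,
      mul_div_cancel₀ _ (hG t)]

theorem fac_mul {G G' : CT} {W W' : ℤ} (h : Fac G W) (h' : Fac G' W') : Fac (G * G') (W + W') := by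
  obtain ⟨l, hl⟩ := h
  obtain ⟨l', hl'⟩ := h'
  refine ⟨l + l', fun t => ?_⟩
  rw [ContinuousMap.mul_apply, ContinuousMap.add_apply, hl, hl', fourier_add, Complex.exp_add]
  ring

theorem fac_const (a : ℂ) (ha : a ≠ 0) : Fac (algebraMap ℂ CT a) 0 := by
  refine ⟨ContinuousMap.const _ (Complex.log a), fun t => ?_⟩
  rw [fourier_zero, one_mul, ContinuousMap.const_apply, Complex.exp_log ha]
  rfl

theorem fac_linear (z : ℂ) (hz : ‖z‖ ≠ 1) : ∃ W, Fac ((fourier 1 : CT) - algebraMap ℂ CT z) W := by
  have hz' : ∀ t, (algebraMap ℂ CT z) t = z := fun t => rfl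
  rcases lt_or_gt_of_ne hz with h | h
  · refine ⟨1, fac_of_close (G := (fourier 1 : CT)) ⟨0, fun t => by simp⟩ fun t => ?_⟩
    rw [fourier_apply_norm, ContinuousMap.sub_apply, hz', sub_sub_cancel_left, norm_neg]
    exact h
  · refine ⟨0, fac_of_close (fac_const (-z) ?_) fun t => ?_⟩
    · intro h0
      rw [neg_eq_zero] at h0
      rw [h0, norm_zero] at h
      linarith
    · have e : (algebraMap ℂ CT (-z)) t = -z := rfl
      rw [ContinuousMap.sub_apply, hz', e, sub_neg_eq_add, sub_add_cancel, fourier_apply_norm,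
        norm_neg]
      exact h

theorem exists_circle (z : ℂ) (hz : ‖z‖ = 1) : ∃ t : Ci, (fourier 1 : CT) t = z := by
  refine ⟨((Complex.arg z / (2 * Real.pi) : ℝ) : Ci), ?_⟩
  rw [fourier_coe_apply]
  have h1 := Complex.norm_mul_exp_arg_mul_I z
  rw [hz, Complex.ofReal_one, one_mul] at h1
  rw [← h1]
  congr 1
  push_cast
  have : (Real.pi : ℂ) ≠ 0 := by exact_mod_cast Real.pi_ne_zero
  rw [h1]
  field_simp

theorem fac_poly (p : Polynomial ℂ) (hp : ∀ t, (Polynomial.aeval (fourier 1 : CT) p) t ≠ 0) :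
    ∃ W, Fac (Polynomial.aeval (fourier 1 : CT) p) W := by
  have hp0 : p ≠ 0 := by
    rintro rfl
    exact hp 0 (by simp)
  have hsplit := (IsAlgClosed.splits p).eq_prod_roots
  have hroot : ∀ z ∈ p.roots, ‖z‖ ≠ 1 := by
    intro z hz h1
    obtain ⟨t, ht⟩ := exists_circle z h1
    refine hp t ?_
    have h2 : (Polynomial.aeval (fourier 1 : CT) p) t = Polynomial.eval ((fourier 1 : CT) t) p := by
      let ev : CT →ₐ[ℂ] ℂ := ContinuousMap.evalAlgHom ℂ ℂ t
      have h3 : ev (Polynomial.aeval (fourier 1 : CT) p) = Polynomial.aeval (ev (fourier 1)) p :=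
        (Polynomial.aeval_algHom_apply ev (fourier 1 : CT) p).symm
      have h4 : ev (fourier 1) = (fourier 1 : CT) t := rfl
      rw [h4, Polynomial.coe_aeval_eq_eval] at h3
      exact h3
    rw [h2, ht]
    exact (Polynomial.mem_roots hp0).1 hz
  have hm : ∀ s : Multiset ℂ, (∀ z ∈ s, ‖z‖ ≠ 1) →
      ∃ W, Fac ((s.map fun z => (fourier 1 : CT) - algebraMap ℂ CT z).prod) W := by
    intro s
    induction s using Multiset.induction_on with
    | empty =>
      intro _
      refine ⟨0, 0, fun t => by simp⟩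
    | cons z s ih =>
      intro h
      obtain ⟨W, hW⟩ := ih fun x hx => h x (Multiset.mem_cons_of_mem hx)
      obtain ⟨V, hV⟩ := fac_linear z (h z (Multiset.mem_cons_self z s))
      refine ⟨V + W, ?_⟩
      rw [Multiset.map_cons, Multiset.prod_cons]
      exact fac_mul hV hW
  obtain ⟨W, hW⟩ := hm p.roots hroot
  refine ⟨0 + W, ?_⟩
  have hlead : p.leadingCoeff ≠ 0 := Polynomial.leadingCoeff_ne_zero.2 hp0
  have e : Polynomial.aeval (fourier 1 : CT) p = algebraMap ℂ CT p.leadingCoeff *
      (p.roots.map fun z => (fourier 1 : CT) - algebraMap ℂ CT z).prod := by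
    conv_lhs => rw [hsplit]
    rw [map_mul, Polynomial.aeval_C, map_multiset_prod, Multiset.map_map]
    congr 2
    refine Multiset.map_congr rfl fun z _ => ?_
    simp
  rw [e]
  exact fac_mul (fac_const _ hlead) hW

end Pool.Agent.Y476.WO
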