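import Mathlib

set_option autoImplicit false
open MeasureTheory AddCircle
open scoped ComplexConjugate

namespace Pool.Agent.Y476.WO

/-- The circle of length one. -/
abbrev Ci := AddCircle (1 : ℝ)

instance : Fact ((0 : ℝ) < 1) := ⟨one_pos⟩

/-- Continuous complex functions on the circle. -/
abbrev CT := C(Ci, ℂ)

/-- The closed algebra generated by the first exponential. -/
noncomputable def Ap : Subalgebra ℂ CT :=
  (Algebra.adjoin ℂ {(fourier 1 : CT)}).topologicalClosure

theorem isClosed_Ap : IsClosed (Ap : Set CT) := Subalgebra.isClosed_topologicalClosure _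

theorem fourier_pow (n : ℕ) : (fourier 1 : CT) ^ n = fourier (n : ℤ) := by
  induction n with
  | zero => ext x; simp
  | succ n ih =>
    ext x
    rw [pow_succ, ih]
    simp only [ContinuousMap.mul_apply]
    push_cast
    rw [fourier_add]

theorem fourier_nat_mem (n : ℕ) : (fourier (n : ℤ) : CT) ∈ Ap := by
  rw [← fourier_pow]
  exact Subalgebra.pow_mem _ (Subalgebra.le_topologicalClosure _
    (Algebra.subset_adjoin (Set.mem_singleton _))) n

theorem integral_fourier (n : ℤ) (hn : n ≠ 0) :
    ∫ t, (fourier n : CT) t ∂(haarAddCircle : Measure Ci) = 0 := by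
  have h := congrFun (fourierCoeff_fourier (T := (1 : ℝ)) n) 0
  rw [Pi.single_eq_of_ne (Ne.symm hn)] at h
  unfold fourierCoeff at h
  simpa using h

theorem cont_int (f : CT) :
    Integrable (fun t => f t) (haarAddCircle : Measure Ci) :=
  f.continuous.integrable_of_hasCompactSupport (HasCompactSupport.of_compactSpace _)

theorem cont_int_real (f : Ci → ℝ) (hf : Continuous f) :
    Integrable f (haarAddCircle : Measure Ci) :=
  hf.integrable_of_hasCompactSupport (HasCompactSupport.of_compactSpace _)

theorem Ap_mean (h : CT) (hh : h ∈ Ap) :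
    ∫ t, ((fourier 1 : CT) * h) t ∂(haarAddCircle : Measure Ci) = 0 := by
  have hcl : IsClosed {h : CT | ∫ t, ((fourier 1 : CT) * h) t ∂(haarAddCircle : Measure Ci) = 0} := by
    have hc : Continuous (fun h : CT => ∫ t, ((fourier 1 : CT) * h) t ∂(haarAddCircle : Measure Ci)) := by
      have : (fun h : CT => ∫ t, ((fourier 1 : CT) * h) t ∂(haarAddCircle : Measure Ci)) =
          (fun f : CT => ∫ t, f t ∂(haarAddCircle : Measure Ci)) ∘ (fun h : CT => (fourier 1 : CT) * h) := rfl
      rw [this]
      refine Continuous.comp ?_ (continuous_const.mul continuous_id)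
      refine continuous_iff_continuousAt.2 fun f => ?_
      rw [Metric.continuousAt_iff]
      intro ε hε
      refine ⟨ε / 2, by positivity, fun g hg => ?_⟩
      rw [dist_eq_norm, ← integral_sub (cont_int g) (cont_int f)]
      have h1 : ∀ t, ‖g t - f t‖ ≤ ε / 2 := fun t => by
        have := ContinuousMap.norm_coe_le_norm (g - f) t
        rw [dist_eq_norm] at hg
        simpa using this.trans hg.le
      have := norm_integral_le_of_norm_le_const (μ := (haarAddCircle : Measure Ci))
        (f := fun t => g t - f t) (C := ε / 2) (Filter.Eventually.of_forall h1)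
      refine lt_of_le_of_lt this ?_
      simp
      linarith
    exact isClosed_eq hc continuous_const
  have hsub : (Algebra.adjoin ℂ {(fourier 1 : CT)} : Set CT) ⊆
      {h : CT | ∫ t, ((fourier 1 : CT) * h) t ∂(haarAddCircle : Measure Ci) = 0} := by
    intro g hg
    have hg' : g ∈ Algebra.adjoin ℂ {(fourier 1 : CT)} := hg
    rw [Algebra.adjoin_singleton_eq_range_aeval] at hg'
    obtain ⟨p, rfl⟩ := hg'
    show ∫ t, ((fourier 1 : CT) * (Polynomial.aeval (fourier 1 : CT)) p) t
      ∂(haarAddCircle : Measure Ci) = 0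
    induction p using Polynomial.induction_on' with
    | add p q hp hq =>
      rw [map_add, mul_add]
      have := integral_add (cont_int ((fourier 1 : CT) * (Polynomial.aeval (fourier 1 : CT)) p))
        (cont_int ((fourier 1 : CT) * (Polynomial.aeval (fourier 1 : CT)) q))
      simp only [ContinuousMap.add_apply]
      rw [this]
      have hp' := hp (by rw [Algebra.adjoin_singleton_eq_range_aeval]; exact ⟨p, rfl⟩)
      have hq' := hq (by rw [Algebra.adjoin_singleton_eq_range_aeval]; exact ⟨q, rfl⟩)
      rw [hp', hq', add_zero]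
    | monomial n a =>
      have e : (fourier 1 : CT) * (Polynomial.aeval (fourier 1 : CT)) (Polynomial.monomial n a) =
          a • (fourier ((n : ℤ) + 1) : CT) := by
        rw [Polynomial.aeval_monomial, fourier_pow]
        ext x
        simp only [ContinuousMap.mul_apply, ContinuousMap.smul_apply, smul_eq_mul]
        rw [fourier_add]
        have : (algebraMap ℂ CT a) x = a := rfl
        rw [this]; ring
      rw [e]
      simp only [ContinuousMap.smul_apply]
      rw [integral_smul, integral_fourier _ (by positivity), smul_zero]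
  exact closure_minimal hsub hcl hh

/-- Pointwise exponential. -/
noncomputable def ce (f : CT) : CT := ⟨fun t => Complex.exp (f t), by fun_prop⟩

@[simp] theorem ce_apply (f : CT) (t : Ci) : ce f t = Complex.exp (f t) := rfl

theorem ce_mem (f : CT) (hf : f ∈ Ap) : ce f ∈ Ap := by
  have h1 : HasSum (fun n : ℕ => ((n.factorial : ℂ)⁻¹) • f ^ n) (NormedSpace.exp f) :=
    NormedSpace.exp_series_hasSum_exp' (𝕂 := ℂ) f
  have h2 : NormedSpace.exp f ∈ Ap := by
    refine isClosed_Ap.mem_of_tendsto h1 (Filter.Eventually.of_forall fun s => ?_)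
    exact Subalgebra.sum_mem _ fun i _ => Subalgebra.smul_mem _ (Subalgebra.pow_mem _ hf i) _
  have h3 : NormedSpace.exp f = ce f := by
    ext t
    rw [ce_apply]
    let ev : CT →ₐ[ℂ] ℂ := ContinuousMap.evalAlgHom ℂ ℂ t
    have hev : Continuous ev := continuous_eval_const t
    have := NormedSpace.map_exp ev hev f
    have h4 : ev f = f t := rfl
    have h5 : ev (NormedSpace.exp f) = (NormedSpace.exp f) t := rfl
    rw [← h5, this, h4, Complex.exp_eq_exp_ℂ]
  rwa [h3] at h2

theorem star_fourier (n : ℤ) : star (fourier n : CT) = fourier (-n) := by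
  ext x
  rw [fourier_neg]
  rfl

theorem split_span (q : CT) (hq : q ∈ Submodule.span ℂ (Set.range (fourier (T := (1 : ℝ))))) :
    ∃ a b : CT, a ∈ Ap ∧ star b ∈ Ap ∧ q = a + b := by
  induction hq using Submodule.span_induction with
  | mem x hx =>
    obtain ⟨n, rfl⟩ := hx
    rcases le_or_gt 0 n with h | h
    · refine ⟨fourier n, 0, ?_, by simp [Subalgebra.zero_mem], by simp⟩
      obtain ⟨m, rfl⟩ := Int.eq_ofNat_of_zero_le h
      exact fourier_nat_mem m
    · refine ⟨0, fourier n, Subalgebra.zero_mem _, ?_, by simp⟩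
      rw [star_fourier]
      obtain ⟨m, hm⟩ := Int.eq_ofNat_of_zero_le (a := -n) (by omega)
      rw [hm]
      exact fourier_nat_mem m
  | zero => exact ⟨0, 0, Subalgebra.zero_mem _, by simp [Subalgebra.zero_mem], by simp⟩
  | add x y _ _ hx hy =>
    obtain ⟨a, b, ha, hb, rfl⟩ := hx
    obtain ⟨a', b', ha', hb', rfl⟩ := hy
    refine ⟨a + a', b + b', Subalgebra.add_mem _ ha ha', ?_, by abel⟩
    rw [star_add]
    exact Subalgebra.add_mem _ hb hb'
  | smul c x _ hx =>
    obtain ⟨a, b, ha, hb, rfl⟩ := hx
    refine ⟨c • a, c • b, Subalgebra.smul_mem _ ha c, ?_, by rw [smul_add]⟩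
    rw [star_smul]
    exact Subalgebra.smul_mem _ hb _

/-- A function with only positive frequencies is not an exponential. -/
theorem hardy (k l : CT) (hk : k ∈ Ap) (h : ∀ t, (fourier 1 : CT) t * k t = Complex.exp (l t)) :
    False := by
  have hd : l ∈ (Submodule.span ℂ (Set.range (fourier (T := (1 : ℝ))))).topologicalClosure := by
    rw [span_fourier_closure_eq_top]; trivial
  have hd' : l ∈ closure ((Submodule.span ℂ (Set.range (fourier (T := (1 : ℝ))))) : Set CT) := hd
  obtain ⟨q, hq, hlq⟩ := Metric.mem_closure_iff.1 hd' (1 / 4) (by norm_num)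
  obtain ⟨a, b, ha, hb, rfl⟩ := split_span q hq
  set u : CT := (fourier 1 : CT) * (k * ce (-a)) with hu
  set w : CT := ce b with hw
  have hut : ∀ t, u t = Complex.exp (l t - a t) := by
    intro t
    rw [hu]
    simp only [ContinuousMap.mul_apply, ce_apply, ContinuousMap.neg_apply]
    rw [← mul_assoc, h, sub_eq_add_neg, Complex.exp_add]
  have hclose : ∀ t, ‖u t - w t‖ ≤ ‖w t‖ / 2 := by
    intro t
    have e : u t - w t = w t * (Complex.exp (l t - (a t + b t)) - 1) := by
      rw [hut, hw, ce_apply, mul_sub, ← Complex.exp_add, mul_one]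
      congr 2
      ring
    have hz : ‖l t - (a t + b t)‖ ≤ 1 / 4 := by
      have := ContinuousMap.norm_coe_le_norm (l - (a + b)) t
      rw [dist_eq_norm] at hlq
      simpa using this.trans hlq.le
    have h2 := Complex.norm_exp_sub_one_le (x := l t - (a t + b t)) (by linarith)
    rw [e, norm_mul]
    have h3 : ‖Complex.exp (l t - (a t + b t)) - 1‖ ≤ 1 / 2 := by linarith
    calc ‖w t‖ * ‖Complex.exp (l t - (a t + b t)) - 1‖ ≤ ‖w t‖ * (1 / 2) :=
          mul_le_mul_of_nonneg_left h3 (norm_nonneg _)
      _ = ‖w t‖ / 2 := by ring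
  have horth : ∫ t, (u * star w) t ∂(haarAddCircle : Measure Ci) = 0 := by
    have hsw : star w = ce (star b) := by
      ext t
      simp only [hw, ContinuousMap.star_apply, ce_apply]
      exact (Complex.exp_conj (b t)).symm
    have e : u * star w = (fourier 1 : CT) * (k * ce (-a) * ce (star b)) := by
      rw [hu, hsw]; ring
    rw [e]
    exact Ap_mean _ (Subalgebra.mul_mem _ (Subalgebra.mul_mem _ hk
      (ce_mem _ (Subalgebra.neg_mem _ ha))) (ce_mem _ hb))
  have hre : ∫ t, (u t * conj (w t)).re ∂(haarAddCircle : Measure Ci) = 0 := by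
    have h1 := integral_re (cont_int (u * star w))
    have h2 : (∫ t, (u * star w) t ∂(haarAddCircle : Measure Ci)).re = 0 := by rw [horth]; simp
    have h3 : ∫ t, RCLike.re ((u * star w) t) ∂(haarAddCircle : Measure Ci) = 0 := by
      rw [h1]; exact h2
    exact h3
  have hcu : Continuous fun t => ‖u t‖ ^ 2 := by fun_prop
  have hcw : Continuous fun t => ‖w t‖ ^ 2 := by fun_prop
  have hcr : Continuous fun t => (u t * conj (w t)).re := by
    have : Continuous fun t => u t * conj (w t) :=
      u.continuous.mul (Complex.continuous_conj.comp w.continuous)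
    exact Complex.continuous_re.comp this
  have key : ∀ t, ‖u t‖ ^ 2 + 3 / 4 * ‖w t‖ ^ 2 - 2 * (u t * conj (w t)).re ≤ 0 := by
    intro t
    have h1 : ‖u t - w t‖ ^ 2 = ‖u t‖ ^ 2 + ‖w t‖ ^ 2 - 2 * (u t * conj (w t)).re := by
      rw [← Complex.normSq_eq_norm_sq, ← Complex.normSq_eq_norm_sq, ← Complex.normSq_eq_norm_sq,
        Complex.normSq_sub]
    have h2 : ‖u t - w t‖ ^ 2 ≤ (‖w t‖ / 2) ^ 2 := by
      have := hclose t
      have h0 := norm_nonneg (u t - w t)
      nlinarith
    nlinarith
  have hint := integral_nonpos (μ := (haarAddCircle : Measure Ci)) (f := fun t =>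
    ‖u t‖ ^ 2 + 3 / 4 * ‖w t‖ ^ 2 - 2 * (u t * conj (w t)).re) key
  have i1 := cont_int_real (fun t => ‖u t‖ ^ 2 + 3 / 4 * ‖w t‖ ^ 2) (by fun_prop)
  have i2 := cont_int_real (fun t => 2 * (u t * conj (w t)).re) (continuous_const.mul hcr)
  have i3 := cont_int_real (fun t => 3 / 4 * ‖w t‖ ^ 2) (by fun_prop)
  rw [integral_sub i1 i2, integral_add (cont_int_real _ hcu) i3, integral_const_mul,
    integral_const_mul, hre] at hint
  have hupos : 0 ≤ ∫ t, ‖u t‖ ^ 2 ∂(haarAddCircle : Measure Ci) :=
    integral_nonneg fun t => by positivity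
  have hwpos : Real.exp (-‖b‖) ^ 2 ≤ ∫ t, ‖w t‖ ^ 2 ∂(haarAddCircle : Measure Ci) := by
    have h1 : ∀ t, Real.exp (-‖b‖) ^ 2 ≤ ‖w t‖ ^ 2 := by
      intro t
      have h2 : Real.exp (-‖b‖) ≤ ‖w t‖ := by
        rw [hw, ce_apply, Complex.norm_exp]
        refine Real.exp_le_exp.2 ?_
        have h3 := ContinuousMap.norm_coe_le_norm b t
        have h4 := (abs_le.1 (Complex.abs_re_le_norm (b t))).1
        linarith
      exact pow_le_pow_left₀ (Real.exp_pos _).le h2 2
    have h5 := integral_mono (μ := (haarAddCircle : Measure Ci)) (integrable_const _)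
      (cont_int_real _ hcw) h1
    simpa using h5
  have : 0 < Real.exp (-‖b‖) ^ 2 := by positivity
  linarith

end Pool.Agent.Y476.WO
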