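import Pool.Agent.Y476.WO.Core

set_option autoImplicit false
open Filter Topology NNReal AddCircle
open scoped ENNReal

namespace Pool.Agent.Y476.WO

/-- The Banach space of summable complex sequences. -/
abbrev XX : Type := lp (fun _ : ℕ => ℂ) 1

/-- The eigenvalues at time t. -/
noncomputable def ev (t : ℝ≥0) (n : ℕ) : ℂ :=
  ((Real.exp (-((t : ℝ) / ((n : ℝ) + 1))) : ℝ) : ℂ) * (fourier (n : ℤ) : CT) (((t : ℝ)) : Ci)

theorem norm_ev (t : ℝ≥0) (n : ℕ) : ‖ev t n‖ = Real.exp (-((t : ℝ) / ((n : ℝ) + 1))) := by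
  unfold ev
  rw [norm_mul, Complex.norm_real, Real.norm_eq_abs, abs_of_pos (Real.exp_pos _),
    fourier_apply_norm, mul_one]

theorem norm_ev_le (t : ℝ≥0) (n : ℕ) : ‖ev t n‖ ≤ 1 := by
  rw [norm_ev, Real.exp_le_one_iff]
  have : 0 ≤ (t : ℝ) / ((n : ℝ) + 1) := by positivity
  linarith

theorem ev_zero (n : ℕ) : ev 0 n = 1 := by
  unfold ev
  simp [fourier_coe_apply]

theorem ev_add (s t : ℝ≥0) (n : ℕ) : ev (s + t) n = ev s n * ev t n := by
  unfold ev
  have h1 : Real.exp (-(((s + t : ℝ≥0) : ℝ) / ((n : ℝ) + 1))) =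
      Real.exp (-((s : ℝ) / ((n : ℝ) + 1))) * Real.exp (-((t : ℝ) / ((n : ℝ) + 1))) := by
    rw [← Real.exp_add]; congr 1; push_cast; ring
  have h2 : (fourier (n : ℤ) : CT) ((((s + t : ℝ≥0) : ℝ)) : Ci) =
      (fourier (n : ℤ) : CT) ((s : ℝ) : Ci) * (fourier (n : ℤ) : CT) ((t : ℝ) : Ci) := by
    rw [fourier_coe_apply, fourier_coe_apply, fourier_coe_apply, ← Complex.exp_add]
    congr 1
    push_cast
    ring
  rw [h1, h2]
  push_cast
  ring

theorem ev_cont (n : ℕ) : Continuous fun t : ℝ≥0 => ev t n := by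
  unfold ev
  refine Continuous.mul ?_ ?_
  · refine Complex.continuous_ofReal.comp (Real.continuous_exp.comp ?_)
    fun_prop
  · refine (fourier (n : ℤ) : CT).continuous.comp ?_
    exact (AddCircle.continuous_mk' (1 : ℝ)).comp NNReal.continuous_coe

theorem summ (x : XX) : Summable fun n => ‖x n‖ := by
  have h := (lp.memℓp x).summable (by simp)
  simpa using h

theorem norm_eq (x : XX) : ‖x‖ = ∑' n, ‖x n‖ := by
  have h := lp.norm_eq_tsum_rpow (p := 1) (by simp) x
  simpa using h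

/-- The multiplication operator. -/
noncomputable def TL (t : ℝ≥0) : XX →ₗ[ℂ] XX where
  toFun x := ⟨fun n => ev t n * x n, memℓp_gen (by
    have : Summable fun n => ‖ev t n * x n‖ := by
      refine Summable.of_nonneg_of_le (fun _ => norm_nonneg _) (fun n => ?_) (summ x)
      rw [norm_mul]
      exact mul_le_of_le_one_left (norm_nonneg _) (norm_ev_le t n)
    simpa using this)⟩
  map_add' x y := by
    ext n
    change ev t n * (x + y) n = ev t n * x n + ev t n * y n
    rw [lp.coeFn_add, Pi.add_apply, mul_add]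
  map_smul' a x := by
    ext n
    change ev t n * (a • x) n = a * (ev t n * x n)
    rw [lp.coeFn_smul, Pi.smul_apply, smul_eq_mul]
    ring

theorem TL_apply (t : ℝ≥0) (x : XX) (n : ℕ) : TL t x n = ev t n * x n := rfl

theorem TL_norm (t : ℝ≥0) (x : XX) : ‖TL t x‖ ≤ 1 * ‖x‖ := by
  rw [one_mul, norm_eq, norm_eq]
  refine (summ (TL t x)).tsum_le_tsum (fun n => ?_) (summ x)
  rw [TL_apply, norm_mul]
  exact mul_le_of_le_one_left (norm_nonneg _) (norm_ev_le t n)

/-- The semigroup. -/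
noncomputable def TT (t : ℝ≥0) : XX →L[ℂ] XX := (TL t).mkContinuous 1 (TL_norm t)

theorem TT_apply (t : ℝ≥0) (x : XX) (n : ℕ) : TT t x n = ev t n * x n := rfl

theorem TT_zero : TT 0 = 1 := by
  ext x n
  rw [TT_apply, ev_zero, one_mul]
  rfl

theorem TT_add (s t : ℝ≥0) : TT (s + t) = TT s * TT t := by
  ext x n
  change ev (s + t) n * x n = ev s n * (ev t n * x n)
  rw [ev_add, mul_assoc]

theorem hasSum_TT (t : ℝ≥0) (x : XX) :
    HasSum (fun n => lp.single 1 n (ev t n * x n)) (TT t x) := by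
  have h := lp.hasSum_single (p := 1) (by simp) (TT t x)
  exact h

theorem norm_term (t : ℝ≥0) (x : XX) (n : ℕ) :
    ‖(lp.single 1 n (ev t n * x n) : XX)‖ ≤ ‖x n‖ := by
  rw [lp.norm_single (by simp), norm_mul]
  exact mul_le_of_le_one_left (norm_nonneg _) (norm_ev_le t n)

theorem TT_cont (x : XX) : Continuous fun t : ℝ≥0 => TT t x := by
  have h1 : (fun t : ℝ≥0 => TT t x) = fun t => ∑' n, (lp.single 1 n (ev t n * x n) : XX) := by
    funext t
    exact (hasSum_TT t x).tsum_eq.symm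
  rw [h1]
  refine continuous_tsum (fun n => ?_) (summ x) (fun n t => norm_term t x n)
  have h2 : (fun t : ℝ≥0 => (lp.single 1 n (ev t n * x n) : XX)) =
      fun t => (ev t n * x n) • (lp.single 1 n (1 : ℂ) : XX) := by
    funext t
    rw [← lp.single_smul, smul_eq_mul, mul_one]
  rw [h2]
  exact ((ev_cont n).mul continuous_const).smul continuous_const

theorem pair_eq (t : ℝ≥0) (x : XX) (y : XX →L[ℂ] ℂ) :
    HasSum (fun n => ev t n * (x n * y (lp.single 1 n (1 : ℂ)))) (y (TT t x)) := by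
  have h := (hasSum_TT t x).mapL y
  convert h using 2 with n
  have h2 : (lp.single 1 n (ev t n * x n) : XX) = (ev t n * x n) • (lp.single 1 n (1 : ℂ) : XX) := by
    rw [← lp.single_smul, smul_eq_mul, mul_one]
  rw [h2, map_smul, smul_eq_mul, mul_assoc]

theorem summ_c (x : XX) (y : XX →L[ℂ] ℂ) :
    Summable fun n => ‖x n * y (lp.single 1 n (1 : ℂ))‖ := by
  refine Summable.of_nonneg_of_le (fun _ => norm_nonneg _) (fun n => ?_) ((summ x).mul_right ‖y‖)
  rw [norm_mul]
  refine mul_le_mul_of_nonneg_left ?_ (norm_nonneg _)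
  refine (y.le_opNorm _).trans ?_
  rw [lp.norm_single (by simp)]
  simp

theorem weak (x : XX) (y : XX →L[ℂ] ℂ) : Tendsto (fun t : ℝ≥0 => y (TT t x)) atTop (𝓝 0) := by
  have h1 : (fun t : ℝ≥0 => y (TT t x)) =
      fun t => ∑' n, ev t n * (x n * y (lp.single 1 n (1 : ℂ))) := by
    funext t
    exact (pair_eq t x y).tsum_eq.symm
  rw [h1]
  have h0 : (0 : ℂ) = ∑' n : ℕ, (0 : ℂ) := by simp
  rw [h0]
  refine tendsto_tsum_of_dominated_convergence (summ_c x y) (fun n => ?_)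
    (Eventually.of_forall fun t n => ?_)
  · rw [← zero_mul (x n * y (lp.single 1 n (1 : ℂ)))]
    refine Tendsto.mul_const _ ?_
    rw [tendsto_zero_iff_norm_tendsto_zero]
    simp_rw [norm_ev]
    refine Real.tendsto_exp_neg_atTop_nhds_zero.comp ?_
    refine Tendsto.atTop_div_const (by positivity) ?_
    exact NNReal.tendsto_coe_atTop.2 tendsto_id
  · rw [norm_mul]
    exact mul_le_of_le_one_left (norm_nonneg _) (norm_ev_le t n)

theorem not_exp : ¬ ∃ M ω : ℝ, 0 < ω ∧ ∀ t : ℝ≥0, ‖TT t‖ ≤ M * Real.exp (-ω * (t : ℝ)) := by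
  rintro ⟨M, ω, hω, h⟩
  obtain ⟨n, hn⟩ := exists_nat_gt (1 / ω)
  have hn1 : 1 / ((n : ℝ) + 1) < ω := by
    rw [div_lt_iff₀ (by positivity)]
    rw [div_lt_iff₀ hω] at hn
    nlinarith
  have hlow : ∀ t : ℝ≥0, Real.exp (-((t : ℝ) / ((n : ℝ) + 1))) ≤ ‖TT t‖ := by
    intro t
    have h1 := (TT t).le_opNorm (lp.single 1 n (1 : ℂ))
    rw [lp.norm_single (by simp), norm_one, mul_one] at h1
    refine le_trans ?_ h1
    have h2 := lp.norm_apply_le_norm (p := 1) (by simp) (TT t (lp.single 1 n (1 : ℂ))) n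
    rw [TT_apply, lp.single_apply_self, mul_one, norm_ev] at h2
    exact h2
  set δ : ℝ := ω - 1 / ((n : ℝ) + 1) with hδ
  have hδ0 : 0 < δ := by linarith
  have hM : ∀ t : ℝ≥0, Real.exp (δ * t) ≤ M := by
    intro t
    have h1 := (hlow t).trans (h t)
    have h2 : Real.exp (-((t : ℝ) / ((n : ℝ) + 1))) = Real.exp (δ * t) * Real.exp (-ω * (t : ℝ)) := by
      rw [← Real.exp_add]; congr 1; rw [hδ]; ring
    rw [h2] at h1
    exact le_of_mul_le_mul_right h1 (Real.exp_pos _)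
  have h3 : ∀ t : ℝ≥0, δ * t + 1 ≤ M := fun t => (Real.add_one_le_exp _).trans (hM t)
  have hMpos : 0 ≤ M := by
    have := h3 0
    simp at this
    linarith
  have h4 := h3 ⟨M / δ, by positivity⟩
  have h5 : δ * (M / δ) = M := by field_simp
  change δ * (M / δ) + 1 ≤ M at h4
  linarith

/-- The rate. -/
noncomputable def aa (t : ℝ≥0) : ℝ := 1 / Real.sqrt (1 + t)

theorem aa_pos (t : ℝ≥0) : 0 < aa t := by
  unfold aa
  positivity

theorem aa_anti : Antitone aa := by
  intro s t h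
  unfold aa
  apply one_div_le_one_div_of_le (by positivity)
  apply Real.sqrt_le_sqrt
  have : (s : ℝ) ≤ t := by exact_mod_cast h
  linarith

theorem aa_lim : Tendsto aa atTop (𝓝 0) := by
  unfold aa
  simp_rw [one_div]
  refine tendsto_inv_atTop_zero.comp ?_
  refine Real.tendsto_sqrt_atTop.comp ?_
  exact tendsto_atTop_add_const_left _ _ (NNReal.tendsto_coe_atTop.2 tendsto_id)

theorem final (x : XX) (y : XX →L[ℂ] ℂ) : ¬ ∀ t : ℝ≥0, aa t ≤ ‖y (TT t x)‖ := by
  intro h
  refine core (c := fun n => x n * y (lp.single 1 n (1 : ℂ))) (summ_c x y) fun t ht => ?_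
  have h1 := h ⟨t, ht⟩
  rw [GG_apply (summ_c x y) ht]
  refine h1.trans (le_of_eq ?_)
  congr 1
  rw [← (pair_eq ⟨t, ht⟩ x y).tsum_eq]
  refine tsum_congr fun n => ?_
  unfold co ev
  change ((Real.exp (-(t / ((n : ℝ) + 1))) : ℝ) : ℂ) * (fourier (n : ℤ) : CT) (t : Ci) * _ = _
  ring

end Pool.Agent.Y476.WO
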